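import Pool.Agent.H83.WeiDefs

set_option autoImplicit false

namespace Pool.Agent.Results.MP_527a81_lc.NotReducible

open Pool.Agent.H83.Wei

/-- Weihrauch reducibility, with Turing functionals read as computable maps on Baire space -/
def WLe (f g : Problem) : Prop :=
  ∃ (H K : (ℕ → ℕ) → ℕ → ℕ) (DH DK : Set (ℕ → ℕ)), CompOn H DH ∧ CompOn K DK ∧
    ∀ p ∈ f.dom, p ∈ DK ∧ K p ∈ g.dom ∧
      ∀ q ∈ g.sol (K p), join p q ∈ DH ∧ H (join p q) ∈ f.sol p

/-- `h` is the characteristic function of an infinite set -/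
def InfSet (h : ℕ → ℕ) : Prop := (∀ n, h n ≤ 1) ∧ {n | h n = 1}.Infinite

def RRT22 : Problem where
  dom := {c | ∀ i, {e : ℕ × ℕ | e.1 < e.2 ∧ c (Nat.pair e.1 e.2) = i}.encard ≤ 2}
  sol c := {h | InfSet h ∧ Set.InjOn (fun e : ℕ × ℕ => c (Nat.pair e.1 e.2))
    {e | e.1 < e.2 ∧ h e.1 = 1 ∧ h e.2 = 1}}

def ThinHT2 : Problem where
  dom := Set.univ
  sol c := {h | InfSet h ∧ ∃ n, ∀ x y, x ≠ y → h x = 1 → h y = 1 → c (x + y) ≠ n}

/-- every finite 0-1 word extends to a solution -/
theorem extend (d g : ℕ → ℕ) (hg : ∀ n, g n ≤ 1) (m : ℕ) :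
    ∃ h ∈ ThinHT2.sol d, ∀ n < m, h n = g n := by
  classical
  let U := Filter.hyperfilter ℕ
  have u1 : ∀ f : ℕ → ℕ, {n | ∀ᶠ y in U, f y = n}.Finite := fun f =>
    Set.Subsingleton.finite fun a ha b hb => by
      obtain ⟨y, h1, h2⟩ := (Filter.Eventually.and ha hb).exists
      exact h1.symm.trans h2
  have u2 : {n | ∀ᶠ x in U, ∀ᶠ y in U, d (x + y) = n}.Finite :=
    Set.Subsingleton.finite fun a ha b hb => by
      obtain ⟨x, h1, h2⟩ := (Filter.Eventually.and ha hb).exists
      obtain ⟨y, h1, h2⟩ := (h1.and h2).exists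
      exact h1.symm.trans h2
  have u3 : (⋃ x ∈ Set.Iio m, {n | ∀ᶠ y in U, d (x + y) = n}).Finite :=
    (Set.finite_Iio m).biUnion fun x _ => u1 _
  obtain ⟨n, hn⟩ := ((u2.union u3).union ((Set.finite_Iio (2 * m)).image d)).infinite_compl.nonempty
  simp only [Set.mem_compl_iff, Set.mem_union, not_or, Set.mem_setOf_eq, Set.mem_iUnion,
    not_exists, ← Ultrafilter.eventually_not, Set.mem_image, not_and, Set.mem_Iio] at hn
  obtain ⟨⟨n1, n2⟩, n3⟩ := hn
  have big : ∀ k, ∀ᶠ y in U, k < y := fun k =>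
    Filter.hyperfilter_le_cofinite (by
      rw [Nat.cofinite_eq_atTop]; exact Filter.eventually_gt_atTop k)
  obtain ⟨f, f1, f2⟩ := exists_seq_of_forall_finset_exists
    (fun y => m < y ∧ (∀ x ∈ Finset.range m, d (x + y) ≠ n) ∧ ∀ᶠ z in U, d (y + z) ≠ n)
    (fun y z => y < z ∧ d (y + z) ≠ n) fun s hs =>
      (((big m).and (((Filter.eventually_all_finset _).2 fun x hx =>
        n2 x (Finset.mem_range.1 hx)).and n1)).and
        ((Filter.eventually_all_finset s).2 fun x hx => (big x).and (hs x hx).2.2)).exists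
  refine ⟨fun y => if y < m then g y else if y ∈ Set.range f then 1 else 0,
    ⟨⟨fun y => ?_, ?_⟩, n, ?_⟩, fun y hy => if_pos hy⟩
  · dsimp only; split_ifs <;> simp [hg]
  · refine (Set.infinite_range_of_injective
      (StrictMono.injective fun a b h => (f2 a b h).1)).mono ?_
    rintro _ ⟨k, rfl⟩
    have := (f1 k).1
    simp [show ¬ f k < m by omega]
  · have key : ∀ x y, x < y → (if x < m then g x else if x ∈ Set.range f then 1 else 0) = 1 →
        (if y < m then g y else if y ∈ Set.range f then 1 else 0) = 1 → d (x + y) ≠ n := by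
      intro x y hxy hx hy
      by_cases h2 : y < m
      · exact n3 _ (by omega)
      rw [if_neg h2] at hy
      obtain ⟨b, rfl⟩ : y ∈ Set.range f := by by_contra h; simp [h] at hy
      by_cases h1 : x < m
      · exact (f1 b).2.1 x (Finset.mem_range.2 h1)
      rw [if_neg h1] at hx
      obtain ⟨a, rfl⟩ : x ∈ Set.range f := by by_contra h; simp [h] at hx
      exact (f2 a b ((StrictMono.lt_iff_lt fun a b h => (f2 a b h).1).1 hxy)).2
    intro x y hxy hx hy
    rcases lt_or_gt_of_ne hxy with h | h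
    · exact key x y h hx hy
    · rw [add_comm]; exact key y x h hy hx

theorem ini_pre (p : ℕ → ℕ) {k l : ℕ} (h : k ≤ l) : ini p k <+: ini p l := by
  obtain ⟨j, rfl⟩ := Nat.exists_eq_add_of_le h
  simp [ini, List.range_add]

/-- The rainbow Ramsey theorem for pairs is not Weihrauch reducible to thin-HT`^{=2}`. -/
theorem result : ¬ WLe RRT22 ThinHT2 := by
  rintro ⟨H, K, DH, DK, ⟨φ, -, mon, hφ⟩, -, red⟩
  obtain ⟨g, hg, -⟩ := extend (K id) (fun _ => 0) (fun _ => zero_le_one) 0
  obtain ⟨d0, ⟨-, i0⟩, -⟩ := (red id fun i => by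
    refine (Set.encard_le_encard (t := {i.unpair}) fun e he => ?_).trans (by simp)
    rw [← he.2]; simp).2.2 g hg
  obtain ⟨x, hx⟩ := i0.nonempty
  obtain ⟨y, hy, hxy⟩ := i0.exists_gt x
  obtain ⟨k1, e1⟩ := hφ _ d0 x
  obtain ⟨k2, e2⟩ := hφ _ d0 y
  let c : ℕ → ℕ := fun n => if k1 + k2 ≤ n ∧ n.unpair.1 = y then Nat.pair x n.unpair.2 else n
  obtain ⟨h, hh, hm⟩ := extend (K c) g hg.1.1 (k1 + k2)
  obtain ⟨d1, ⟨-, i1⟩, inj⟩ := (red c fun i => by
    refine (Set.encard_le_encard (t := {i.unpair, (y, i.unpair.2)}) fun e he => ?_).trans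
      ((Set.encard_insert_le _ _).trans (by simp [one_add_one_eq_two]))
    have := he.2
    simp only [c, Nat.unpair_pair] at this
    split_ifs at this with h
    · right; rw [← this, ← h.2]; simp
    · left; rw [← this]; simp).2.2 h hh
  have same : ini (join c h) (k1 + k2) = ini (join id g) (k1 + k2) :=
    List.map_congr_left fun n hn => by
      have := List.mem_range.1 hn
      unfold join
      split_ifs
      · exact if_neg (by omega)
      · exact hm _ (by omega)
  have keep : ∀ z k, k ≤ k1 + k2 → φ (ini (join id g) k) z = some 1 → H (join c h) z = 1 := by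
    intro z k hk e
    obtain ⟨l, el⟩ := hφ _ d1 z
    have a1 := mon _ _ _ _ (ini_pre _ (Nat.le_add_right l (k1 + k2))) el
    have a2 := mon _ _ _ _ (ini_pre _ (Nat.le_add_left (k1 + k2) l))
      (same ▸ mon _ _ _ _ (ini_pre _ hk) e)
    exact Option.some.inj (a1.symm.trans a2)
  have hx' := keep x k1 (by omega) (by rw [e1, hx])
  have hy' := keep y k2 (by omega) (by rw [e2, hy])
  obtain ⟨z, hz, hyz⟩ := i1.exists_gt (y + (k1 + k2))
  have := Nat.right_le_pair y z
  have := @inj (x, z) ⟨show x < z by omega, hx', hz⟩ (y, z) ⟨show y < z by omega, hy', hz⟩ (by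
    simp only [c, Nat.unpair_pair]
    rw [if_neg (by omega), if_pos ⟨by omega, trivial⟩])
  exact hxy.ne (congrArg Prod.fst this)

end Pool.Agent.Results.MP_527a81_lc.NotReducible
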